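import Pool.Agent.Q285.JQ.SQP
import Pool.Agent.Q24.JQ.OMV

/-!
# Project JQ (helper44), job LXC: the order of the space of the classes which satisfy all local conditions
-/

set_option autoImplicit false
set_option linter.unusedVariables false

namespace Q44.JQ.F.LX

open Finset Module Q44.JQ Pool.Agent.Q285.JQ
open Pool.Agent.TH344.JG (LocJ SelJ PR df)
open Pool.Agent.Y723.PT (tw dc LG isSquare_cancel locJ_iff tw_inj)
open Pool.Agent.Q24.JQ (t_LBL t_OMV cop_ne cop_mul ct_Uo ct_prod dz_ne)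
open scoped Classical

theorem mk_sub' {M : Type} [AddCommGroup M] [Module (ZMod 2) M] (P : M → Prop) (h0 : P 0)
    (ha : ∀ x y, P x → P y → P (x + y)) : ∃ R : Submodule (ZMod 2) M, ∀ y, y ∈ R ↔ P y :=
  ⟨{ carrier := {y | P y}
     add_mem' := fun {x y} hx hy => ha x y hx hy
     zero_mem' := h0
     smul_mem' := by
      intro c x hx
      rcases two_cases c with rfl | rfl
      · rw [zero_smul]
        exact h0
      · rw [one_smul]
        exact hx }, fun y => Iff.rfl⟩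

theorem lsz_gen {K : Type} [Field K] (h : ∀ a : Fin 3 → ℤ, Function.Injective a →
    Nat.card (imJ K a) = Nat.card (SC K)) : ∀ (m : ℕ), m = 3 → ∀ a : Fin m → ℤ,
    Function.Injective a → Nat.card (imJ K a) = Nat.card (SC K) := by
  rintro m rfl
  exact h

/-- products of the integers of the classes -/
theorem prod_uo {T : Finset ℕ} (hT : ∀ p ∈ T, p.Prime) (hT2 : 2 ∈ T) {ι : Type} (A : Finset ι)
    (δ : ι → Option T → ZMod 2) : IsSquare ((∏ i ∈ A, Uo (δ i)) * Uo (∑ i ∈ A, δ i)) := by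
  have h1 := Pool.Agent.Q24.JQ.Uo_sq hT (z := ∏ i ∈ A, Uo (δ i))
    (prod_ne_zero_iff.2 fun i _ => Uo_ne hT (δ i)) (by
      intro p hp hd
      obtain ⟨i, _, h1⟩ := (Nat.prime_iff_prime_int.1 hp).exists_mem_finset_dvd hd
      exact Pool.Agent.Q24.JQ.Uo_supp hT _ p hp h1)
  obtain ⟨w, -, hw⟩ := h1
  rw [ct_prod hT A (fun i => Uo (δ i)) fun i _ => Uo_ne hT (δ i)] at hw
  have h2 : ∑ i ∈ A, (ct (Uo (δ i)) : Option T → ZMod 2) = ∑ i ∈ A, δ i :=
    sum_congr rfl fun i _ => ct_Uo hT (δ i)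
  rw [h2] at hw
  rw [hw]
  exact IsSquare.sq w

theorem lbl_prod {T : Finset ℕ} (hT : ∀ p ∈ T, p.Prime) (hT2 : 2 ∈ T) {ι : Type} (A : Finset ι)
    (z : ι → ℕ) (hz : ∀ i ∈ A, Cop T (z i)) : Cop T (∏ i ∈ A, z i) ∧
    lbl T (∏ i ∈ A, z i) = ∑ i ∈ A, lbl T (z i) := by
  obtain ⟨l1, -⟩ := t_LBL T hT hT2
  have hcop1 : Cop T 1 := fun p hp h => (hT p hp).one_lt.ne' (Nat.dvd_one.1 h)
  induction A using Finset.induction_on with
  | empty =>
    rw [prod_empty, sum_empty]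
    refine ⟨hcop1, ?_⟩
    have h := l1 1 1 hcop1 hcop1
    rw [one_mul] at h
    exact left_eq_add.1 h
  | insert a A ha ih =>
    obtain ⟨i1, i2⟩ := ih fun b hb => hz b (mem_insert_of_mem hb)
    rw [prod_insert ha, sum_insert ha]
    exact ⟨cop_mul hT (hz a (mem_insert_self _ _)) i1, by rw [l1 _ _ (hz a (mem_insert_self _ _)) i1, i2]⟩

theorem t_LXC (hLSQ : S_LSQ) (hLSZ : S_LSZ) (hLOCI : S_LOCI) (hLCL : S_LCL) : S_LXC := by
  intro T hT h2T c hg ρ
  have hF : ∀ p : T, Fact (p : ℕ).Prime := fun p => ⟨hT p p.2⟩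
  obtain ⟨l1, -, -, l4, -⟩ := t_LBL T hT h2T
  obtain ⟨k1, k2, -, k3⟩ := hLCL T hT h2T c ρ
  obtain ⟨L, hL⟩ := mk_sub' (fun y : (Option T → c.V) × (Option T → c.V) =>
      c.Lc ℝ ρ y ∧ ∀ p ∈ T, c.Lp p ρ y)
    ⟨k2, fun p hp _ => (k3 p hp).2.1⟩
    fun x y hx hy => ⟨k1 x y hx.1 hy.1, fun p hp _ => (k3 p hp).1 x y (hx.2 p hp) (hy.2 p hp)⟩
  refine ⟨L, hL, ?_⟩
  have hcp : ∀ p : ℕ, p.Prime → p ∉ T → Cop T p := by
    intro p hpp hpT t ht hd
    rw [Nat.prime_dvd_prime_iff_eq (hT t ht) hpp] at hd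
    exact hpT (hd ▸ ht)
  have hex : ∀ ψ : Option T → ZMod 2, ∃ z : ℕ, Cop T z ∧ lbl T z = ψ := fun ψ => by
    obtain ⟨p, h1, -, h2, h3⟩ := l4 ψ 0
    exact ⟨p, hcp p h1 h2, h3⟩
  choose zc hz1 hz2 using hex
  obtain ⟨n, hn1, hn2⟩ : ∃ n : ℕ, Cop T n ∧ lbl T n = ρ := ⟨zc ρ, hz1 ρ, hz2 ρ⟩
  have hn0 : ((n : ℕ) : ℤ) ≠ 0 := by exact_mod_cast cop_ne h2T hn1
  obtain ⟨a, ha⟩ : ∃ a : Fin (2 * c.g + 1) → ℤ, a = tw (n : ℤ) c.a := ⟨_, rfl⟩
  have hai : Function.Injective a := by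
    rw [ha]
    exact tw_inj hn0 c.inj
  -- the integers of a pair
  obtain ⟨D, hD⟩ : ∃ D : (Option T → c.V) × (Option T → c.V) → Fin (2 * c.g + 1) → ℤ,
      D = fun y => c.dz y.1 fun i => zc fun o => (y.2 o).1 i := ⟨_, rfl⟩
  have hDne : ∀ y i, D y i ≠ 0 := by
    intro y i
    rw [hD]
    exact dz_ne hT h2T c y.1 (fun i => hz1 _) i
  have hDe : ∀ y i, D y i = Uo (fun o => (y.1 o).1 i) * (zc fun o => (y.2 o).1 i : ℤ) := by
    intro y i
    rw [hD]
    rfl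
  have hmem : ∀ y, y ∈ L ↔ (fun i => cls ((D y i : ℤ) : ℝ)) ∈ imJ ℝ a ∧
      ∀ p : T, (fun i => cls ((D y i : ℤ) : ℚ_[(p : ℕ)])) ∈ imJ ℚ_[(p : ℕ)] a := by
    intro y
    obtain ⟨o1, o2⟩ := hLOCI T hT h2T c ρ y n (fun i => zc fun o => (y.2 o).1 i) hn1 hn2
      fun i => ⟨hz1 _, hz2 _⟩
    rw [hL, imJ_iff _ _ fun i => Int.cast_ne_zero.2 (hDne y i), o1, ha, hD]
    refine and_congr Iff.rfl ⟨fun h p => ?_, fun h p hp _ => ?_⟩
    · have h1 : c.Lc ℚ_[(p : ℕ)] ρ y := h p p.2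
      rw [o2 p p.2] at h1
      rw [imJ_iff _ _ fun i => Int.cast_ne_zero.2 (by have := hDne y i; rw [hD] at this; exact this)]
      exact h1
    · have h1 := h ⟨p, hp⟩
      rw [imJ_iff _ _ fun i => Int.cast_ne_zero.2 (by have := hDne y i; rw [hD] at this; exact this)] at h1
      exact (o2 p hp).2 h1
  have hb : Function.Bijective (fun y : L =>
      ((⟨fun i => cls ((D y i : ℤ) : ℝ), ((hmem y).1 y.2).1⟩,
        fun p => ⟨fun i => cls ((D y i : ℤ) : ℚ_[(p : ℕ)]), ((hmem y).1 y.2).2 p⟩) :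
        (imJ ℝ a) × ∀ p : T, (imJ ℚ_[(p : ℕ)] a))) := by
    constructor
    · rintro ⟨y, hy⟩ ⟨y', hy'⟩ h
      have h1 := congrArg Subtype.val (Prod.ext_iff.1 h).1
      have h2 := fun p => congrArg Subtype.val (congrFun (Prod.ext_iff.1 h).2 p)
      have h3 : ∀ i, (fun o => (y.1 o).1 i) = (fun o => (y'.1 o).1 i) ∧
          (fun o => (y.2 o).1 i) = (fun o => (y'.2 o).1 i) := by
        intro i
        have e1 := (cls_eq (Int.cast_ne_zero.2 (hDne y i)) (Int.cast_ne_zero.2 (hDne y' i))).1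
          (congrFun h1 i)
        have e2 := fun p : T => (cls_eq (Int.cast_ne_zero.2 (hDne y i))
          (Int.cast_ne_zero.2 (hDne y' i))).1 (congrFun (h2 p) i)
        rw [hDe, hDe] at e1
        have e3 := inj2 hLSQ hT h2T (fun o => (y.1 o).1 i) (fun o => (y'.1 o).1 i)
          (zc fun o => (y.2 o).1 i) (zc fun o => (y'.2 o).1 i) (hz1 _) (hz1 _) e1 fun p => by
            have := e2 p
            rw [hDe, hDe] at this
            exact this
        rw [hz2, hz2] at e3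
        exact e3
      refine Subtype.ext (Prod.ext (funext fun o => Subtype.ext (funext fun i => ?_))
        (funext fun o => Subtype.ext (funext fun i => ?_)))
      · exact congrFun (h3 i).1 o
      · exact congrFun (h3 i).2 o
    · rintro ⟨⟨w0, hw0⟩, w⟩
      choose x0 hx0 hxw0 using fun i => cls_surj (w0 i)
      choose x hx hxw using fun (p : T) i => cls_surj ((w p).1 i)
      choose δ ψ hδ using fun i => sur hT h2T (x0 i) (hx0 i) (fun p => x p i) fun p => hx p i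
      have hne : ∀ i, (Uo (δ i) * (zc (ψ i) : ℤ) : ℤ) ≠ 0 := fun i =>
        mul_ne_zero (Uo_ne hT _) (by exact_mod_cast cop_ne h2T (hz1 (ψ i)))
      have hc0 : ∀ i, cls ((Uo (δ i) * (zc (ψ i) : ℤ) : ℤ) : ℝ) = w0 i := fun i => by
        rw [← hxw0 i, eq_comm, cls_eq (hx0 i) (Int.cast_ne_zero.2 (hne i))]
        exact (hδ i (zc (ψ i)) (hz1 _) (hz2 _)).1
      have hcp' : ∀ (p : T) i, cls ((Uo (δ i) * (zc (ψ i) : ℤ) : ℤ) : ℚ_[(p : ℕ)]) = (w p).1 i :=
        fun p i => by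
          rw [← hxw p i, eq_comm, cls_eq (hx p i) (Int.cast_ne_zero.2 (hne i))]
          exact (hδ i (zc (ψ i)) (hz1 _) (hz2 _)).2 p
      -- the sums
      obtain ⟨q1, q2⟩ := lbl_prod hT h2T univ (fun i => zc (ψ i)) fun i _ => hz1 _
      have hsq : ∀ (K : Type) [Field K] [CharZero K],
          IsSquare (∏ i, ((Uo (δ i) * (zc (ψ i) : ℤ) : ℤ) : K)) →
          IsSquare ((Uo (∑ i, δ i) * ((∏ i, zc (ψ i) : ℕ) : ℤ) : ℤ) : K) := by
        intro K _ _ h
        have h1 := (prod_uo hT h2T univ δ).map (Int.castRingHom K)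
        have h2 := h1.mul h
        have e1 : (Int.castRingHom K) ((∏ i, Uo (δ i)) * Uo (∑ i, δ i)) *
            (∏ i, ((Uo (δ i) * (zc (ψ i) : ℤ) : ℤ) : K)) =
            (((∏ i, Uo (δ i) : ℤ) : K) * ((∏ i, Uo (δ i) : ℤ) : K)) *
            ((Uo (∑ i, δ i) * ((∏ i, zc (ψ i) : ℕ) : ℤ) : ℤ) : K) := by
          rw [eq_intCast]
          push_cast
          rw [prod_mul_distrib]
          ring
        rw [e1] at h2
        have h3 : ((∏ i, Uo (δ i) : ℤ) : K) ≠ 0 :=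
          Int.cast_ne_zero.2 (prod_ne_zero_iff.2 fun i _ => Uo_ne hT _)
        exact isSquare_cancel (mul_ne_zero h3 h3) ⟨_, rfl⟩ h2
      have hs0 : IsSquare (∏ i, ((Uo (δ i) * (zc (ψ i) : ℤ) : ℤ) : ℝ)) := by
        refine LG.prod_sq ((imJ_iff a _ fun i => Int.cast_ne_zero.2 (hne i)).1 ?_)
        have : (fun i => cls ((Uo (δ i) * (zc (ψ i) : ℤ) : ℤ) : ℝ)) = w0 := funext hc0
        rw [this]
        exact hw0
      have hsp : ∀ p : T, IsSquare (∏ i, ((Uo (δ i) * (zc (ψ i) : ℤ) : ℤ) : ℚ_[(p : ℕ)])) := by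
        intro p
        refine LG.prod_sq ((imJ_iff a _ fun i => Int.cast_ne_zero.2 (hne i)).1 ?_)
        have : (fun i => cls ((Uo (δ i) * (zc (ψ i) : ℤ) : ℤ) : ℚ_[(p : ℕ)])) = (w p).1 :=
          funext (hcp' p)
        rw [this]
        exact (w p).2
      obtain ⟨r1, r2⟩ := inj0 hLSQ hT h2T _ _ q1 (hsq _ hs0) fun p => hsq _ (hsp p)
      rw [q2] at r2
      have r3 : ∑ i, ψ i = 0 := by
        rw [← r2]
        exact sum_congr rfl fun i _ => (hz2 _).symm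
      obtain ⟨y, hy⟩ : ∃ y : (Option T → c.V) × (Option T → c.V),
          y = (fun o => ⟨fun i => δ i o, by
            rw [mem_VV, ← Finset.sum_apply, r1]
            rfl⟩, fun o => ⟨fun i => ψ i o, by
            rw [mem_VV, ← Finset.sum_apply, r3]
            rfl⟩) := ⟨_, rfl⟩
      have hDy : ∀ i, D y i = Uo (δ i) * (zc (ψ i) : ℤ) := by
        intro i
        rw [hDe, hy]
      have hyL : y ∈ L := by
        rw [hmem]
        refine ⟨?_, fun p => ?_⟩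
        · have : (fun i => cls ((D y i : ℤ) : ℝ)) = w0 := funext fun i => by rw [hDy, hc0]
          rw [this]
          exact hw0
        · have : (fun i => cls ((D y i : ℤ) : ℚ_[(p : ℕ)])) = (w p).1 :=
            funext fun i => by rw [hDy, hcp']
          rw [this]
          exact (w p).2
      refine ⟨⟨y, hyL⟩, Prod.ext (Subtype.ext (funext fun i => ?_))
        (funext fun p => Subtype.ext (funext fun i => ?_))⟩
      · show cls ((D y i : ℤ) : ℝ) = w0 i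
        rw [hDy, hc0]
      · show cls ((D y i : ℤ) : ℚ_[(p : ℕ)]) = (w p).1 i
        rw [hDy, hcp']
  have h := Nat.card_congr (Equiv.ofBijective _ hb)
  rw [Nat.card_prod, Nat.card_pi (β := fun p : T => (imJ ℚ_[(p : ℕ)] a))] at h
  have hm3 : 2 * c.g + 1 = 3 := by rw [hg]
  rw [lsz_gen hLSZ.2 _ hm3 a hai, prod_congr rfl fun (p : T) _ =>
    lsz_gen (hLSZ.1 p) _ hm3 a hai, card_sc hLSQ hT h2T] at h
  obtain ⟨-, -, hV, -, -⟩ := t_OMV T c ⊥
  rw [h, hV, hg, Fintype.card_option, Fintype.card_coe]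
  norm_num

end Q44.JQ.F.LX
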