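import Pool.Agent.Q87.JQ.NINV
import Pool.Agent.Q44.JQ.StmE

/-! # The contribution of a subspace which is not invariant, second version -/

set_option autoImplicit false

namespace Q44.JQ.F

open Finset Module Q44.JQ Pool.Agent.Q87.JQ
open Pool.Agent.Y703.CQ (prs)

open scoped Classical

theorem z2 (x : ZMod 2) : x = 0 ∨ x = 1 := by revert x; decide

/-- an alternating form is the polar form of a quadratic form -/
theorem quad_exists {L : Type} [AddCommGroup L] [Module (ZMod 2) L] [Finite L]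
    (B : L →ₗ[ZMod 2] L →ₗ[ZMod 2] ZMod 2) (hB : ∀ x, B x x = 0) :
    ∃ q : L → ZMod 2, ∀ x y, q (x + y) = q x + q y + B x y := by
  have e := Module.finBasis (ZMod 2) L
  obtain ⟨C, hC⟩ : ∃ C : L → L → ZMod 2, ∀ x y, C x y =
      ∑ k, ∑ l, if k < l then e.repr x k * e.repr y l * B (e k) (e l) else 0 := ⟨_, fun _ _ => rfl⟩
  have h1 : ∀ x x' y, C (x + x') y = C x y + C x' y := by
    intro x x' y
    rw [hC, hC, hC, ← sum_add_distrib]
    refine sum_congr rfl fun k _ => ?_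
    rw [← sum_add_distrib]
    refine sum_congr rfl fun l _ => ?_
    split_ifs
    · rw [map_add, Finsupp.add_apply]
      ring
    · rw [add_zero]
  have h2 : ∀ x y y', C x (y + y') = C x y + C x y' := by
    intro x y y'
    rw [hC, hC, hC, ← sum_add_distrib]
    refine sum_congr rfl fun k _ => ?_
    rw [← sum_add_distrib]
    refine sum_congr rfl fun l _ => ?_
    split_ifs
    · rw [map_add, Finsupp.add_apply]
      ring
    · rw [add_zero]
  have h3 : ∀ x y, C x y + C y x = B x y := by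
    intro x y
    have e1 : B x y = ∑ k, ∑ l, e.repr x k * e.repr y l * B (e k) (e l) := by
      conv_lhs => rw [← e.sum_repr x, ← e.sum_repr y]
      simp only [map_sum, LinearMap.sum_apply, map_smul, LinearMap.smul_apply, smul_eq_mul,
        mul_sum]
      rw [sum_comm]
      refine sum_congr rfl fun k _ => sum_congr rfl fun l _ => ?_
      ring
    have e2 : C y x = ∑ k, ∑ l, if l < k then e.repr x k * e.repr y l * B (e k) (e l) else 0 := by
      rw [hC, sum_comm]
      refine sum_congr rfl fun k _ => sum_congr rfl fun l _ => ?_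
      split_ifs
      · rw [alt_symm hB (e l) (e k)]
        ring
      · rfl
    rw [e1, e2, hC, ← sum_add_distrib]
    refine sum_congr rfl fun k _ => ?_
    rw [← sum_add_distrib]
    refine sum_congr rfl fun l _ => ?_
    rcases lt_trichotomy k l with h | h | h
    · rw [if_pos h, if_neg h.not_gt, add_zero]
    · rw [if_neg h.not_lt, if_neg h.not_gt, h, hB, mul_zero, add_zero]
    · rw [if_neg h.not_gt, if_pos h, zero_add]
  refine ⟨fun x => C x x, fun x y => ?_⟩
  show C (x + y) (x + y) = C x x + C y y + B x y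
  rw [h1, h2, h2, ← h3]
  ring

/-- the sum of the polar form over the pairs -/
theorem pairs_sum {L ι : Type} [AddCommGroup L] [Module (ZMod 2) L] [LinearOrder ι]
    (B : L →ₗ[ZMod 2] L →ₗ[ZMod 2] ZMod 2) (q : L → ZMod 2)
    (hq : ∀ x y, q (x + y) = q x + q y + B x y) (v : ι → ZMod 2) (l : ι → L) (S : Finset ι) :
    ∑ i ∈ S, ∑ j ∈ S, (if j < i then v i * v j else 0) * B (l i) (l j) =
      q (∑ i ∈ S, v i • l i) + ∑ i ∈ S, v i * q (l i) := by
  have q0 : q 0 = 0 := by
    have h := hq 0 0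
    rw [add_zero, map_zero, add_zero] at h
    have h2 : ∀ a : ZMod 2, a = a + a → a = 0 := by decide
    exact h2 _ h
  have qs : ∀ (c : ZMod 2) x, q (c • x) = c * q x := by
    intro c x
    rcases z2 c with rfl | rfl
    · rw [zero_smul, q0, zero_mul]
    · rw [one_smul, one_mul]
  induction S using Finset.induction_on_max with
  | empty => simp [q0]
  | insert a S ha ih =>
    have haS : a ∉ S := fun h => lt_irrefl _ (ha a h)
    rw [sum_insert haS, sum_insert haS, sum_insert haS, sum_insert haS, if_neg (lt_irrefl a),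
      zero_mul, zero_add, hq, qs]
    have h1 : ∑ j ∈ S, (if j < a then v a * v j else 0) * B (l a) (l j) =
        B (v a • l a) (∑ i ∈ S, v i • l i) := by
      rw [map_sum]
      refine sum_congr rfl fun j hj => ?_
      rw [if_pos (ha j hj)]
      simp only [map_smul, LinearMap.smul_apply, smul_eq_mul]
      ring
    have h2 : ∑ i ∈ S, ∑ j ∈ insert a S, (if j < i then v i * v j else 0) * B (l i) (l j) =
        ∑ i ∈ S, ∑ j ∈ S, (if j < i then v i * v j else 0) * B (l i) (l j) := by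
      refine sum_congr rfl fun i hi => ?_
      rw [sum_insert haS, if_neg (ha i hi).not_gt, zero_mul, zero_add]
    rw [h1, h2, ih]
    have h3 : ∀ a b c d e : ZMod 2, c + (b + d) = a + b + c + (a + d) + (e + e) := by
      decide
    have h4 := h3 (v a * q (l a)) (q (∑ i ∈ S, v i • l i)) (B (v a • l a) (∑ i ∈ S, v i • l i))
      (∑ i ∈ S, v i * q (l i)) 0
    rw [h4]
    ring

/-- the sum over the families with a function of one linear combination -/
theorem sum_lin {ι L : Type} [Fintype ι] [DecidableEq ι] [AddCommGroup L] [Module (ZMod 2) L] [Fintype L]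
    (M : Finset ι) (c : ZMod 2) (q : L → ZMod 2) (v : ι → ZMod 2) (f : ι → L → ZMod 2)
    (hf : ∀ i ∈ M, ∀ ψ : L →ₗ[ZMod 2] ZMod 2,
      |∑ x, sg (f i x + v i * ψ x)| ≤ (Fintype.card L : ℝ) / 2) :
    |∑ l : ι → L, sg (c + q (∑ i, v i • l i) + ∑ i, f i (l i))| ≤
      Fintype.card L * ((Fintype.card L : ℝ) ^ Fintype.card ι / 2 ^ M.card) := by
  have hfin : Finite (Dual (ZMod 2) L) := DFunLike.finite _
  have hfin' : Fintype (⊥ : Submodule (ZMod 2) L).dualAnnihilator := Fintype.ofFinite _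
  have hN0 : (0 : ℝ) < Fintype.card (⊥ : Submodule (ZMod 2) L).dualAnnihilator := by
    exact_mod_cast Fintype.card_pos
  have hN : ∀ x : L, ∑ χ : (⊥ : Submodule (ZMod 2) L).dualAnnihilator,
      sg ((χ : Dual (ZMod 2) L) x) = if x = 0 then
        (Fintype.card (⊥ : Submodule (ZMod 2) L).dualAnnihilator : ℝ) else 0 := by
    intro x
    rw [indic]
    simp only [Submodule.mem_bot]
  have h1 : (Fintype.card (⊥ : Submodule (ZMod 2) L).dualAnnihilator : ℝ) *
      ∑ l : ι → L, sg (c + q (∑ i, v i • l i) + ∑ i, f i (l i)) =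
      ∑ τ : L, ∑ χ : (⊥ : Submodule (ZMod 2) L).dualAnnihilator,
        ∑ l : ι → L, sg ((c + q τ + (χ : Dual (ZMod 2) L) τ) +
          ∑ i, (f i (l i) + v i * (χ : Dual (ZMod 2) L) (l i))) := by
    have h2 : ∀ (τ : L) (χ : (⊥ : Submodule (ZMod 2) L).dualAnnihilator) (l : ι → L),
        sg ((c + q τ + (χ : Dual (ZMod 2) L) τ) +
          ∑ i, (f i (l i) + v i * (χ : Dual (ZMod 2) L) (l i))) =
        sg ((χ : Dual (ZMod 2) L) (τ + ∑ i, v i • l i)) * sg (c + q τ + ∑ i, f i (l i)) := by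
      intro τ χ l
      rw [← sg_add, map_add, map_sum, sum_add_distrib]
      congr 1
      simp only [map_smul, smul_eq_mul]
      ring
    simp only [h2]
    rw [mul_sum]
    have h3 : ∀ l : ι → L, (Fintype.card (⊥ : Submodule (ZMod 2) L).dualAnnihilator : ℝ) *
        sg (c + q (∑ i, v i • l i) + ∑ i, f i (l i)) =
        ∑ τ : L, ∑ χ : (⊥ : Submodule (ZMod 2) L).dualAnnihilator,
          sg ((χ : Dual (ZMod 2) L) (τ + ∑ i, v i • l i)) * sg (c + q τ + ∑ i, f i (l i)) := by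
      intro l
      have h4 : ∀ τ : L, ∑ χ : (⊥ : Submodule (ZMod 2) L).dualAnnihilator,
          sg ((χ : Dual (ZMod 2) L) (τ + ∑ i, v i • l i)) * sg (c + q τ + ∑ i, f i (l i)) =
          if ∑ i, v i • l i = τ then
            (Fintype.card (⊥ : Submodule (ZMod 2) L).dualAnnihilator : ℝ) *
              sg (c + q τ + ∑ i, f i (l i)) else 0 := by
        intro τ
        rw [← sum_mul, hN]
        have h5 : τ + ∑ i, v i • l i = 0 ↔ ∑ i, v i • l i = τ := by
          constructor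
          · intro h
            have h6 := congrArg (fun y => τ + y) h
            simp only [add_zero] at h6
            rw [← add_assoc, self_add, zero_add] at h6
            exact h6
          · intro h
            rw [h, self_add]
        by_cases h6 : ∑ i, v i • l i = τ
        · rw [if_pos (h5.2 h6), if_pos h6]
        · rw [if_neg (fun h => h6 (h5.1 h)), if_neg h6, zero_mul]
      simp only [h4]
      rw [Finset.sum_ite_eq univ (∑ i, v i • l i) fun τ =>
        (Fintype.card (⊥ : Submodule (ZMod 2) L).dualAnnihilator : ℝ) *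
              sg (c + q τ + ∑ i, f i (l i)), if_pos (mem_univ _)]
    simp only [h3]
    rw [sum_comm]
    refine sum_congr rfl fun τ _ => ?_
    rw [sum_comm]
  have h2 : ∀ (τ : L) (χ : (⊥ : Submodule (ZMod 2) L).dualAnnihilator),
      |∑ l : ι → L, sg ((c + q τ + (χ : Dual (ZMod 2) L) τ) +
          ∑ i, (f i (l i) + v i * (χ : Dual (ZMod 2) L) (l i)))| ≤
      (Fintype.card L : ℝ) ^ Fintype.card ι / 2 ^ M.card := by
    intro τ χ
    refine sum_sep (L := L) M _ (fun m => c + q τ + (χ : Dual (ZMod 2) L) τ +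
      ∑ i : {i // i ∉ M}, (f i (m i) + v i * (χ : Dual (ZMod 2) L) (m i)))
      (fun i x => f i x + v i * (χ : Dual (ZMod 2) L) x) (fun l => ?_) (fun i hi => hf i hi _)
    rw [← Finset.sum_add_sum_compl M, add_comm (∑ i ∈ M, _), ← add_assoc]
    congr 2
    exact Finset.sum_subtype _ (fun i => by simp) _
  have h3 : (Fintype.card (⊥ : Submodule (ZMod 2) L).dualAnnihilator : ℝ) *
      |∑ l : ι → L, sg (c + q (∑ i, v i • l i) + ∑ i, f i (l i))| ≤
      (Fintype.card (⊥ : Submodule (ZMod 2) L).dualAnnihilator : ℝ) *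
        (Fintype.card L * ((Fintype.card L : ℝ) ^ Fintype.card ι / 2 ^ M.card)) := by
    rw [← abs_of_pos hN0, ← abs_mul, abs_of_pos hN0, h1]
    refine (Finset.abs_sum_le_sum_abs _ _).trans ?_
    refine (Finset.sum_le_sum fun τ _ => (Finset.abs_sum_le_sum_abs _ _).trans
      (Finset.sum_le_sum fun χ _ => h2 τ χ)).trans (le_of_eq ?_)
    rw [Finset.sum_const, Finset.sum_const, Finset.card_univ, Finset.card_univ, nsmul_eq_mul,
      nsmul_eq_mul]
    ring
  exact le_of_mul_le_mul_left h3 hN0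

section main

variable {s V U ι : Type} [Fintype s] [AddCommGroup V] [Module (ZMod 2) V]
  [Fintype U] [Fintype ι] [LinearOrder ι]

/-- second difference, with a quadratic form and a linear form -/
theorem sec_diff2 (B : V →ₗ[ZMod 2] ZMod 2) (ω : V →ₗ[ZMod 2] V →ₗ[ZMod 2] ZMod 2)
    (A : V →ₗ[ZMod 2] V) (a c p : V) (f g : V × V → ZMod 2)
    (hf : ∀ l, f l = B (a + l.1) + ω (c + l.2) (p + A l.1)) (x μ μ' : V × V) (w : ZMod 2)
    (hg : g x + g (x + μ) + g (x + μ') + g (x + μ + μ') = w) :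
    (f x + g x) + (f (x + μ) + g (x + μ)) + (f (x + μ') + g (x + μ')) +
      (f (x + μ + μ') + g (x + μ + μ')) = ω μ.2 (A μ'.1) + ω μ'.2 (A μ.1) + w := by
  rw [← sec_diff B ω A a c p f hf x μ μ', ← hg]
  ring

/-- the Gauss sum at one large prime -/
theorem gauss_two [Fintype V] (D : Dj s V) (hs : D.Sym)
    (nd : ∀ x, (∀ y, D.ω x y = 0) → x = 0)
    (Λ : Submodule (ZMod 2) (V × V)) (hΛ : ∀ z ∈ Λ, D.ω z.2 z.1 = 0)
    (hc : Nat.card Λ = Nat.card V) (φ : s → ZMod 2)
    (hex : ∃ z ∈ Λ, (D.T φ z.1, D.T φ z.2) ∉ Λ) (q : Λ → ZMod 2)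
    (hq : ∀ x y : Λ, q (x + y) = q x + q y + D.ω (x : V × V).2 (y : V × V).1)
    (B : V →ₗ[ZMod 2] ZMod 2) (c : U → ZMod 2) (y : U → V) (z : V × V) (κ : V) (d : ZMod 2)
    (ψ : Λ →ₗ[ZMod 2] ZMod 2)
    (f : V × V → ZMod 2) (hf : ∀ l, f l = B (z.1 + l.1) +
        D.ω (z.2 + l.2) (∑ u, c u • (y u + (z.1 + l.1)) + D.T φ (z.1 + l.1) + κ)) :
    |∑ l : Λ, sg (f (l : V × V) + φ D.s₀ * q l + d * D.ω z.2 (l : V × V).1 + φ D.s₀ * ψ l)| ≤
      (Fintype.card Λ : ℝ) / 2 := by
  obtain ⟨z₀, hz₀, hz₀'⟩ := hex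
  obtain ⟨z₁, hz₁, hz₁'⟩ : ∃ z₁ ∈ Λ, pol D.ω z₁ (D.T φ z₀.1, D.T φ z₀.2) ≠ 0 := by
    by_contra hcon
    push Not at hcon
    exact hz₀' (pol_orth hs.alt nd hΛ hc hcon)
  have hz1 : pol D.ω z₁ (D.T φ z₀.1, D.T φ z₀.2) = 1 := by
    have h2 : ∀ x : ZMod 2, x ≠ 0 → x = 1 := by decide
    exact h2 _ hz₁'
  rw [pol_apply] at hz1
  simp only at hz1
  rw [hs.adj] at hz1
  refine gs4 (fun l : Λ => f (l : V × V) + φ D.s₀ * q l + d * D.ω z.2 (l : V × V).1 +
    φ D.s₀ * ψ l) ⟨z₁, hz₁⟩ ⟨z₀, hz₀⟩ fun x => ?_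
  obtain ⟨A, hA⟩ : ∃ A : V →ₗ[ZMod 2] V, A = (∑ u, c u) • LinearMap.id + D.T φ := ⟨_, rfl⟩
  have key := sec_diff B D.ω A z.1 z.2 (∑ u, c u • (y u + z.1) + D.T φ z.1 + κ) f (fun l => by
    have f1 : ∑ u, c u • (y u + (z.1 + l.1)) + D.T φ (z.1 + l.1) + κ =
        ∑ u, c u • (y u + z.1) + D.T φ z.1 + κ + A l.1 := by
      rw [hA, LinearMap.add_apply, LinearMap.smul_apply, LinearMap.id_apply, map_add,
        Finset.sum_smul]
      have f2 : ∑ u, c u • (y u + (z.1 + l.1)) =
          ∑ u, c u • (y u + z.1) + ∑ u, c u • l.1 := by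
        rw [← Finset.sum_add_distrib]
        refine Finset.sum_congr rfl fun u _ => ?_
        rw [← smul_add, add_assoc]
      rw [f2]
      abel
    rw [hf, f1]) (x : V × V) z₁ z₀
  rw [hA] at key
  simp only [LinearMap.add_apply, LinearMap.smul_apply, LinearMap.id_apply, map_add, map_smul,
    smul_eq_mul] at key
  have g2 := pol_sing hΛ hz₁ hz₀
  rw [pol_apply] at g2
  simp only [hq, Submodule.coe_add, Prod.fst_add, Prod.snd_add, map_add, LinearMap.add_apply]
  linear_combination (norm := (ring_nf; reduce_mod_char)) key + (∑ u, c u) * g2 + hz1 +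
    φ D.s₀ * g2

/-- the bound for one coset -/
theorem coset2 [Fintype V] (D : Dj s V) (hs : D.Sym) (nd : ∀ x, (∀ y, D.ω x y = 0) → x = 0)
    (b : Bk s U ι) (Λ : Submodule (ZMod 2) (V × V)) (hΛ : ∀ z ∈ Λ, D.ω z.2 z.1 = 0)
    (hc : Nat.card Λ = Nat.card V) (φ : s → ZMod 2)
    (hex : ∃ z ∈ Λ, (D.T φ z.1, D.T φ z.2) ∉ Λ)
    (χ : ((s → V) × (U ⊕ ι → V)) →ₗ[ZMod 2] ZMod 2) (δ : s → V) (y : U → V) (z : V × V) :
    |∑ l : ι → Λ, sg (χ (δ, Sum.elim y (fun i => z.1 + (l i : V × V).1)) +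
      ∑ i, D.ω (z.2 + (l i : V × V).2) (rowL D (b.N D.s₀ 0) b.h
        (δ, Sum.elim y (fun i => z.1 + (l i : V × V).1)) (Sum.inr i)))| ≤
      Fintype.card Λ * ((Fintype.card Λ : ℝ) ^ Fintype.card ι /
        2 ^ (univ.filter fun i => b.hJ i = φ).card) := by
  obtain ⟨B, hB⟩ : ∃ B : ι → V →ₗ[ZMod 2] ZMod 2, ∀ i v, B i v = χ (0, Pi.single (Sum.inr i) v) :=
    ⟨fun i => χ.comp ((LinearMap.inr (ZMod 2) (s → V) (U ⊕ ι → V)).comp
      (LinearMap.single (ZMod 2) (fun _ : U ⊕ ι => V) (Sum.inr i))), fun i v => rfl⟩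
  obtain ⟨a, ha⟩ : ∃ a : ι → V × V → ZMod 2, ∀ i l, a i l = B i (z.1 + l.1) +
      D.ω (z.2 + l.2) (∑ u, b.C i u • (y u + (z.1 + l.1)) + D.T (b.hJ i) (z.1 + l.1) +
        ∑ t, b.hJ i t • δ t) := ⟨_, fun _ _ => rfl⟩
  obtain ⟨ω', hω'⟩ : ∃ ω' : Λ →ₗ[ZMod 2] Λ →ₗ[ZMod 2] ZMod 2, ∀ x y : Λ,
      ω' x y = D.ω (x : V × V).2 (y : V × V).1 :=
    ⟨(D.ω.comp ((LinearMap.snd (ZMod 2) V V).comp Λ.subtype)).compl₂
      ((LinearMap.fst (ZMod 2) V V).comp Λ.subtype), fun _ _ => rfl⟩
  obtain ⟨q, hq⟩ := quad_exists ω' fun x => by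
    rw [hω']
    exact hΛ x x.2
  obtain ⟨v, hv⟩ : ∃ v : ι → ZMod 2, ∀ i, v i = b.hJ i D.s₀ := ⟨_, fun _ => rfl⟩
  obtain ⟨d, hd⟩ : ∃ d : ι → ZMod 2, ∀ i, d i = ∑ j, (if j < i then v i * v j else 0) +
      ∑ j, (if i < j then v j * v i else 0) := ⟨_, fun _ => rfl⟩
  have hF : ∀ l : ι → Λ, χ (δ, Sum.elim y (fun i => z.1 + (l i : V × V).1)) +
      ∑ i, D.ω (z.2 + (l i : V × V).2) (rowL D (b.N D.s₀ 0) b.h
        (δ, Sum.elim y (fun i => z.1 + (l i : V × V).1)) (Sum.inr i)) =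
      χ (δ, Sum.elim y 0) + q (∑ i, v i • l i) +
        ∑ i, (a i (l i : V × V) + v i * q (l i) + d i * D.ω z.2 (l i : V × V).1) := by
    intro l
    rw [chi_split, expo]
    have e1 : ∑ i, a i (l i : V × V) = ∑ i, χ (0, Pi.single (Sum.inr i) (z.1 + (l i : V × V).1)) +
        ∑ i, D.ω (z.2 + (l i : V × V).2) (∑ u, b.C i u • (y u + (z.1 + (l i : V × V).1)) +
          D.T (b.hJ i) (z.1 + (l i : V × V).1) + ∑ t, b.hJ i t • δ t) := by
      rw [← Finset.sum_add_distrib]
      refine Finset.sum_congr rfl fun i _ => ?_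
      rw [ha, hB]
    have e2 := pairs_sum ω' q hq v l univ
    have e3 : ∑ i, ∑ j, (if j < i then b.hJ i D.s₀ * b.hJ j D.s₀ else 0) *
        D.ω (z.2 + (l i : V × V).2) ((z.1 + (l j : V × V).1) + (z.1 + (l i : V × V).1)) =
        ∑ i, ∑ j, (if j < i then v i * v j else 0) * ω' (l i) (l j) +
          ∑ i, d i * D.ω z.2 (l i : V × V).1 := by
      have e4 : ∀ i j, (if j < i then b.hJ i D.s₀ * b.hJ j D.s₀ else 0) *
          D.ω (z.2 + (l i : V × V).2) ((z.1 + (l j : V × V).1) + (z.1 + (l i : V × V).1)) =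
          (if j < i then v i * v j else 0) * ω' (l i) (l j) +
            ((if j < i then v i * v j else 0) * D.ω z.2 (l i : V × V).1 +
            (if j < i then v i * v j else 0) * D.ω z.2 (l j : V × V).1) := by
        intro i j
        have e5 : (z.1 + (l j : V × V).1) + (z.1 + (l i : V × V).1) =
            (l j : V × V).1 + (l i : V × V).1 := by
          rw [add_comm z.1 (l j : V × V).1, add_assoc, ← add_assoc z.1, self_add, zero_add]
        have e6 : D.ω (l i : V × V).2 (l i : V × V).1 = 0 := hΛ _ (l i).2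
        rw [e5, hω', ← hv, ← hv, map_add, map_add, LinearMap.add_apply, LinearMap.add_apply, e6]
        ring
      simp only [e4, sum_add_distrib]
      congr 1
      have e7 : ∑ i, ∑ j, (if j < i then v i * v j else 0) * D.ω z.2 (l j : V × V).1 =
          ∑ i, ∑ j, (if i < j then v j * v i else 0) * D.ω z.2 (l i : V × V).1 := by
        rw [sum_comm]
      rw [e7, ← sum_add_distrib]
      refine sum_congr rfl fun i _ => ?_
      rw [hd, add_mul, sum_mul, sum_mul]
    rw [e3, e2, sum_add_distrib, sum_add_distrib, e1]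
    ring
  simp only [hF]
  refine sum_lin (L := Λ) (univ.filter fun i => b.hJ i = φ) (χ (δ, Sum.elim y 0)) q v
    (fun i x => a i (x : V × V) + v i * q x + d i * D.ω z.2 (x : V × V).1) fun i hi ψ => ?_
  have hφi : b.hJ i = φ := (mem_filter.1 hi).2
  have hvi : v i = φ D.s₀ := by rw [hv, hφi]
  rw [hvi]
  exact gauss_two D hs nd Λ hΛ hc φ hex q (fun x y => by rw [hq, hω']) (B i) (b.C i) y z
    (∑ t, b.hJ i t • δ t) (d i) ψ (a i) fun l => by rw [ha, hφi]

theorem t_NINV2 : S_NINV2 := by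
  intro s V U ι _ _ _ _ _ _ _ D ρ hD b hb Λ hΛ hcard φ hex
  have hcΛ : Fintype.card Λ = Fintype.card V := by
    rw [← Nat.card_eq_fintype_card, hcard]
  have hc : Nat.card Λ = Nat.card V := by
    rw [hcard, Nat.card_eq_fintype_card]
  obtain ⟨m, hm⟩ : ∃ m : ℕ, m = (univ.filter fun i => b.hJ i = φ).card := ⟨_, rfl⟩
  obtain ⟨E, hE⟩ : ∃ E : Submodule (ZMod 2) ((s → V) × (U ⊕ ι → V)), E = EU D b := ⟨_, rfl⟩
  obtain ⟨v, hv⟩ : ∃ v : ℝ, v = (Fintype.card V : ℝ) := ⟨_, rfl⟩
  rw [← hm, ← hv, ← hE]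
  have hv1 : 1 ≤ v := by
    rw [hv]
    exact_mod_cast Fintype.card_pos
  have hv0 : 0 < v := by linarith
  obtain ⟨G, hG⟩ : ∃ G : ((s → V) × (U ⊕ ι → V)) → (ι → V) → ZMod 2, ∀ e W, G e W =
    ∑ i, D.ω (W i) (rowL D (b.N D.s₀ 0) b.h e (Sum.inr i)) := ⟨_, fun _ _ => rfl⟩
  -- the sum over the families with differences in `Λ`
  have hZ : ∀ (χ : ((s → V) × (U ⊕ ι → V)) →ₗ[ZMod 2] ZMod 2) (δ : s → V) (y : U → V),
      |∑ Z : ι → V × V, (if ∀ i j, Z i + Z j ∈ Λ then
        sg (χ (δ, Sum.elim y (fun i => (Z i).1)) + G (δ, Sum.elim y (fun i => (Z i).1))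
          (fun i => (Z i).2)) else 0)| ≤ v * (v * v ^ Fintype.card ι / 2 ^ m) := by
    intro χ δ y
    rcases isEmpty_or_nonempty ι with hι | hι
    · have hm0 : m = 0 := by
        rw [hm, Finset.card_eq_zero]
        exact Finset.eq_empty_of_isEmpty _
      rw [hm0, pow_zero, div_one, Fintype.card_eq_zero (α := ι), pow_zero, mul_one]
      refine (Finset.abs_sum_le_sum_abs _ _).trans ?_
      refine (Finset.sum_le_sum (g := fun _ => (1 : ℝ)) fun Z _ => ?_).trans ?_
      · split_ifs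
        · exact (abs_sg _).le
        · simp
      · rw [Finset.sum_const, Finset.card_univ, Fintype.card_fun, Fintype.card_eq_zero (α := ι),
          pow_zero, nsmul_eq_mul]
        have h0 : (1 : ℝ) ≤ v * v := by nlinarith
        simpa using h0
    · have h1 := sum_diff Λ (fun Z : ι → V × V =>
        sg (χ (δ, Sum.elim y (fun i => (Z i).1)) + G (δ, Sum.elim y (fun i => (Z i).1))
          (fun i => (Z i).2)))
      beta_reduce at h1
      have h2 : |∑ z : V × V, ∑ l : ι → Λ,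
          sg (χ (δ, Sum.elim y (fun i => (z + (l i : V × V)).1)) +
            G (δ, Sum.elim y (fun i => (z + (l i : V × V)).1)) (fun i => (z + (l i : V × V)).2))| ≤
          v ^ 2 * (v * (v ^ Fintype.card ι / 2 ^ m)) := by
        refine (Finset.abs_sum_le_sum_abs _ _).trans ?_
        refine (Finset.sum_le_card_nsmul univ _ (v * (v ^ Fintype.card ι / 2 ^ m))
          (fun z _ => ?_)).trans ?_
        · have h3 := coset2 D hD.toSym hD.nd b Λ hΛ hc φ hex χ δ y z
          rw [← hm, hcΛ, ← hv] at h3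
          simp only [hG]
          exact h3
        · rw [Finset.card_univ, Fintype.card_prod, nsmul_eq_mul]
          push_cast
          rw [← hv, sq]
      rw [← h1, abs_mul, abs_of_nonneg (Nat.cast_nonneg _), hcΛ, ← hv] at h2
      have h3 : v * (v * (v * v ^ Fintype.card ι / 2 ^ m)) =
          v ^ 2 * (v * (v ^ Fintype.card ι / 2 ^ m)) := by
        ring
      rw [← h3] at h2
      exact le_of_mul_le_mul_left h2 hv0
  -- the sum with a character
  have hχ : ∀ χ : ((s → V) × (U ⊕ ι → V)) →ₗ[ZMod 2] ZMod 2,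
      |∑ e : (s → V) × (U ⊕ ι → V), ∑ W : ι → V,
        (if ∀ i j, (e.2 (Sum.inr i) + e.2 (Sum.inr j), W i + W j) ∈ Λ then
          sg (χ e + G e W) else 0)| ≤
        v ^ (2 + Fintype.card s + Fintype.card U + Fintype.card ι) / 2 ^ m := by
    intro χ
    rw [sum_split]
    refine (Finset.abs_sum_le_sum_abs _ _).trans ?_
    have h1 : ∀ δ ∈ (univ : Finset (s → V)), |∑ y : U → V, ∑ Z : ι → V × V,
        (if ∀ i j, ((Sum.elim y (fun i => (Z i).1) : U ⊕ ι → V) (Sum.inr i) +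
          (Sum.elim y (fun i => (Z i).1) : U ⊕ ι → V) (Sum.inr j), (Z i).2 + (Z j).2) ∈ Λ then
          sg (χ (δ, Sum.elim y (fun i => (Z i).1)) + G (δ, Sum.elim y (fun i => (Z i).1))
            (fun i => (Z i).2)) else 0)| ≤
        v ^ Fintype.card U * (v * (v * v ^ Fintype.card ι / 2 ^ m)) := by
      intro δ _
      refine (Finset.abs_sum_le_sum_abs _ _).trans ?_
      refine (Finset.sum_le_card_nsmul univ _ _ (fun y _ => hZ χ δ y)).trans ?_
      rw [Finset.card_univ, Fintype.card_fun, nsmul_eq_mul]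
      push_cast
      rw [← hv]
    refine (Finset.sum_le_card_nsmul univ _ _ h1).trans (le_of_eq ?_)
    rw [Finset.card_univ, Fintype.card_fun, nsmul_eq_mul]
    push_cast
    rw [← hv, pow_add, pow_add, pow_add]
    ring
  -- the mean over the characters
  have hfin : Finite (Dual (ZMod 2) ((s → V) × (U ⊕ ι → V))) := DFunLike.finite _
  have hfin' : Fintype E.dualAnnihilator := Fintype.ofFinite _
  have hA0 : (0 : ℝ) < Fintype.card E.dualAnnihilator := by exact_mod_cast Fintype.card_pos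
  have h5 : (Fintype.card E.dualAnnihilator : ℝ) *
      ∑ e : (s → V) × (U ⊕ ι → V), ∑ W : ι → V, (if e ∈ E ∧
        (∀ i j, (e.2 (Sum.inr i) + e.2 (Sum.inr j), W i + W j) ∈ Λ) then sg (G e W) else 0) =
      ∑ χ : E.dualAnnihilator, ∑ e : (s → V) × (U ⊕ ι → V), ∑ W : ι → V,
        (if ∀ i j, (e.2 (Sum.inr i) + e.2 (Sum.inr j), W i + W j) ∈ Λ then
          sg ((χ : Dual (ZMod 2) _) e + G e W) else 0) := by
    rw [Finset.mul_sum, Finset.sum_comm]
    refine Finset.sum_congr rfl fun e _ => ?_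
    rw [Finset.mul_sum, Finset.sum_comm]
    refine Finset.sum_congr rfl fun W _ => ?_
    by_cases h6 : ∀ i j, (e.2 (Sum.inr i) + e.2 (Sum.inr j), W i + W j) ∈ Λ
    · simp only [if_pos h6, sg_add]
      rw [← Finset.sum_mul, indic E e]
      by_cases h7 : e ∈ E
      · rw [if_pos h7, if_pos ⟨h7, h6⟩]
      · rw [if_neg h7, if_neg (fun h => h7 h.1), mul_zero, zero_mul]
    · simp only [if_neg h6, Finset.sum_const_zero]
      rw [if_neg (fun h => h6 h.2), mul_zero]
  have h6 : (Fintype.card E.dualAnnihilator : ℝ) *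
      |∑ e : (s → V) × (U ⊕ ι → V), ∑ W : ι → V, (if e ∈ E ∧
        (∀ i j, (e.2 (Sum.inr i) + e.2 (Sum.inr j), W i + W j) ∈ Λ) then sg (G e W) else 0)| ≤
      (Fintype.card E.dualAnnihilator : ℝ) *
        (v ^ (2 + Fintype.card s + Fintype.card U + Fintype.card ι) / 2 ^ m) := by
    rw [← abs_of_pos hA0, ← abs_mul, abs_of_pos hA0, h5]
    refine (Finset.abs_sum_le_sum_abs _ _).trans ?_
    refine (Finset.sum_le_sum fun (χ : E.dualAnnihilator) _ => hχ χ.1).trans (le_of_eq ?_)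
    rw [Finset.sum_const, Finset.card_univ, nsmul_eq_mul]
  have h7 := le_of_mul_le_mul_left h6 hA0
  simp only [hG] at h7
  exact h7

end main

end Q44.JQ.F
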