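import Pool.Agent.Q261.JQ.ID
import Pool.Agent.Q261.JQ.PAR
import Pool.Agent.Q261.JQ.EU
import Pool.Agent.Q261.JQ.MAIN
import Pool.Agent.Q299.JQ.TOR
import Pool.Agent.Q182.JQ.PROB
import Pool.Agent.Q87.JQ.NMAX
import Pool.Agent.Q299.JQ.ORT
import Pool.Agent.Q81.JQ.MOM
import Pool.Agent.Q81.JQ.PI
import Pool.Agent.Q81.JQ.CNT
import Pool.Agent.Q299.JQ.HVB
import Pool.Agent.Q299.JQ.PF
import Pool.Agent.Q299.JQ.TAME
import Pool.Agent.Q24.JQ.QLOC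
import Pool.Agent.Q24.JQ.LBL
import Pool.Agent.Q24.JQ.OMV
import Pool.Agent.Q24.JQ.LOCI
import Pool.Agent.Q121.JQ.LCL
import Pool.Agent.Q84.JQ.LCC
import Pool.Agent.Q285.JQ.ROW
import Pool.Agent.Q121.JQ.DEC
import Pool.Agent.Q285.JQ.QZ
import Pool.Agent.Q129.JQ.GOODL
import Pool.Agent.Q129.JQ.NICEL
import Pool.Agent.Q84.JQ.FLIP
import Pool.Agent.Q153.JQ.ARX
import Pool.Agent.Q129.JQ.SQM
import Pool.Agent.Q299.JQ.LAM2
import Pool.Agent.Q225.JQ.SS2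
import Pool.Agent.Q299.JQ.LAJ2
import Pool.Agent.Q299.JQ.IRRA
import Pool.Agent.Q299.JQ.IRRB
import Pool.Agent.Q149.JQ.ADJP
import Pool.Agent.Q182.JQ.CHT
import Pool.Agent.Q182.JQ.ADJM
import Pool.Agent.Q285.JQ.LSQ
import Pool.Agent.Q154.JQ.BEX
import Pool.Agent.Q182.JQ.ELL
import Pool.Agent.Q285.JQ.ARXE
import Pool.Agent.Q44.JQ.F.LXC
import Pool.Agent.Q44.JQ.F.NINV2
import Pool.Agent.Q285.JQ.SELY
import Pool.Agent.Q153.JQ.ADJ0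
import Pool.Agent.Q153.JQ.ISO1
import Pool.Agent.Q121.JQ.LSZ

/-!
# The facts proved by the members of the project
-/

set_option autoImplicit false

namespace Q44.JQ.F

open Q44.JQ

theorem omv : S_OMV := Pool.Agent.Q24.JQ.t_OMV

theorem lbl : S_LBL := Pool.Agent.Q24.JQ.t_LBL

theorem sqm : S_SQM := Pool.Agent.Q129.JQ.t_SQM

theorem lsq : S_LSQ := Pool.Agent.Q285.JQ.t_LSQ lbl

theorem irrA : S_IRRA := Pool.Agent.Q299.JQ.t_IRRA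

theorem irrB : S_IRRB := Pool.Agent.Q299.JQ.t_IRRB

theorem loci : S_LOCI := Pool.Agent.Q24.JQ.t_LOCI

theorem lcl : S_LCL := Pool.Agent.Q121.JQ.t_LCL lbl loci

theorem lcc : S_LCC := Pool.Agent.Q84.JQ.t_LCC lbl

theorem id : S_ID := Pool.Agent.Q261.JQ.t_ID

theorem hvb : S_HVB := Pool.Agent.Q299.JQ.t_HVB

theorem pf : S_PF := Pool.Agent.Q299.JQ.t_PF

theorem tame : S_TAME := Pool.Agent.Q299.JQ.t_TAME

theorem qloc : S_QLOC := Pool.Agent.Q24.JQ.t_QLOC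

theorem row : S_ROW := Pool.Agent.Q285.JQ.t_ROW lbl omv tame hvb

theorem selx : S_SELX := Pool.Agent.Q121.JQ.t_SELX row lbl

theorem qz : S_QZ := Pool.Agent.Q285.JQ.t_QZ id pf tame lbl hvb omv

theorem goodl : S_GOODL := Pool.Agent.Q129.JQ.t_GOODL lbl tame

theorem nicel : S_NICEL := Pool.Agent.Q129.JQ.t_NICEL lbl tame

theorem flip : S_FLIP := Pool.Agent.Q84.JQ.t_FLIP

theorem bex : S_BEX := Q154.JQ.t_BEX lbl

theorem arx : S_ARX :=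
  Pool.Agent.Q153.JQ.t_ARX omv loci lcl lcc selx qz qloc goodl nicel bex flip lbl

theorem lsz : S_LSZ := Pool.Agent.Q121.JQ.t_LSZ

theorem lxc : S_LXC := LX.t_LXC lsq lsz loci lcl

theorem sely : S_SELY := Pool.Agent.Q285.JQ.t_SELY lsz loci lcl row tame lbl

theorem arxe : S_ARXE := Pool.Agent.Q285.JQ.t_ARXE lxc sely selx lcl omv qz qloc

theorem adj0 : S_ADJ0 := Pool.Agent.Q153.JQ.t_ADJ0

theorem iso1 : S_ISO1 := Pool.Agent.Q153.JQ.t_ISO1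

theorem ell : S_ELL := Q182.JQ.ELL.t_ELL

theorem eu : S_EU := Pool.Agent.Q261.JQ.t_EU id

theorem par : S_PAR := Pool.Agent.Q261.JQ.t_PAR id

theorem tor : S_TOR := Pool.Agent.Q299.JQ.t_TOR

theorem main : S_MAIN := Pool.Agent.Q261.JQ.t_MAIN id tor

theorem lam2 : S_LAM2 :=
  Pool.Agent.Q299.JQ.t_LAM2 Q182.JQ.t_PROB eu main t_NINV2 Pool.Agent.Q87.JQ.t_NMAX
    Pool.Agent.Q299.JQ.t_ORT

theorem laj2 : S_LAJ2 :=
  Pool.Agent.Q299.JQ.t_LAJ2 lam2 Pool.Agent.Q225.JQ.t_SS2 Pool.Agent.Q81.JQ.t_CNT par tor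
    Pool.Agent.Q81.JQ.t_PI Pool.Agent.Q81.JQ.t_MOM

theorem adjp : S_ADJP := Q149.JQ.ADJP.t_ADJP

theorem cht : S_CHT := Q182.JQ.CHT.t_CHT

theorem adjm : S_ADJM := Q182.JQ.ADJM.t_ADJM

end Q44.JQ.F
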